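import Pool.Agent.Helper46.NU.Goals1

/-!
# Packet NG for MP_1fe1ca_lc (helper46): codes of the null sets
-/

set_option autoImplicit false

open MeasureTheory Filter Topology Set
open scoped ENNReal

noncomputable section

namespace NU.PkNG

theorem mem_blk {j m : ℕ} : m ∈ blk j ↔ 2 ^ j ≤ m ∧ m < 2 ^ (j + 1) := by
  unfold blk
  exact Finset.mem_Ico

theorem last_unique {t : Finset ℕ} {n m : ℕ} (h : LastN t n) (h' : LastN t m) : n = m :=
  le_antisymm (h'.2 n h.1) (h.2 m h'.1)

/-- the sets with last element `n` which agree with `c` on the block `j` -/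
def UU (n j : ℕ) (c : ℕ → Bool) : Finset (Finset ℕ) :=
  (Finset.range (n + 1)).powerset.filter (fun t => n ∈ t ∧ ∀ m ∈ blk j, (m ∈ t ↔ c m = true))

theorem card_UU (n j : ℕ) (c : ℕ → Bool) (h : 2 ^ (j + 1) ≤ n) :
    (UU n j c).card ≤ 2 ^ (n - 2 ^ j) := by
  classical
  have hsub : blk j ⊆ Finset.range n := by
    intro m hm
    rw [mem_blk] at hm
    exact Finset.mem_range.mpr (lt_of_lt_of_le hm.2 h)
  have hc : (Finset.range n \ blk j).card = n - 2 ^ j := by
    rw [Finset.card_sdiff_of_subset hsub, Finset.card_range]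
    unfold blk
    rw [Nat.card_Ico, pow_succ]
    congr 1
    omega
  rw [← hc, ← Finset.card_powerset]
  apply Finset.card_le_card_of_injOn (fun t => (t.erase n) \ blk j)
  · intro t ht
    unfold UU at ht
    simp only [Finset.coe_filter, Set.mem_ofPred_eq, Finset.mem_powerset] at ht
    simp only [Finset.coe_powerset, Set.mem_preimage, Set.mem_powerset_iff, Finset.coe_subset]
    intro m hm
    rw [Finset.mem_sdiff, Finset.mem_erase] at hm
    rw [Finset.mem_sdiff]
    refine ⟨?_, hm.2⟩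
    have := Finset.mem_range.mp (ht.1 hm.1.2)
    rw [Finset.mem_range]
    have := hm.1.1
    omega
  · intro t ht t' ht' htt
    unfold UU at ht ht'
    simp only [Finset.coe_filter, Set.mem_ofPred_eq, Finset.mem_powerset] at ht ht'
    simp only at htt
    ext m
    by_cases hmn : m = n
    · subst hmn
      exact ⟨fun _ => ht'.2.1, fun _ => ht.2.1⟩
    by_cases hmb : m ∈ blk j
    · rw [ht.2.2 m hmb, ht'.2.2 m hmb]
    · have h1 : m ∈ (t.erase n) \ blk j ↔ m ∈ (t'.erase n) \ blk j := by rw [htt]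
      simp only [Finset.mem_sdiff, Finset.mem_erase] at h1
      tauto

theorem sum_bd (n k : ℕ) :
    ∑ j ∈ (Finset.Icc (k + 1) n).filter (fun j => 2 ^ (j + 1) ≤ n), 2 ^ (n - 2 ^ j) * 2 ^ k
      ≤ 2 ^ n := by
  classical
  have h1 : ∑ j ∈ (Finset.Icc (k + 1) n).filter (fun j => 2 ^ (j + 1) ≤ n),
      2 ^ (n - 2 ^ j) * 2 ^ k ≤
      ∑ j ∈ (Finset.Icc (k + 1) n).filter (fun j => 2 ^ (j + 1) ≤ n), 2 ^ (n - (j - k)) := by
    apply Finset.sum_le_sum
    intro j hj
    rw [Finset.mem_filter, Finset.mem_Icc] at hj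
    rw [← pow_add]
    apply Nat.pow_le_pow_right (by norm_num)
    have h2 : j < 2 ^ j := Nat.lt_two_pow_self
    have h3 : 2 ^ (j + 1) = 2 ^ j + 2 ^ j := by rw [pow_succ]; ring
    have := hj.2
    omega
  have h2 : ∑ j ∈ (Finset.Icc (k + 1) n).filter (fun j => 2 ^ (j + 1) ≤ n), 2 ^ (n - (j - k)) =
      ∑ e ∈ ((Finset.Icc (k + 1) n).filter (fun j => 2 ^ (j + 1) ≤ n)).image
        (fun j => n - (j - k)), 2 ^ e := by
    rw [Finset.sum_image]
    intro i hi j hj hij
    simp only [Finset.coe_filter, Finset.mem_Icc, Set.mem_ofPred_eq] at hi hj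
    simp only at hij
    omega
  refine h1.trans ?_
  rw [h2]
  apply le_of_lt
  apply Nat.geomSum_lt (le_refl 2)
  intro e he
  rw [Finset.mem_image] at he
  obtain ⟨j, hj, rfl⟩ := he
  rw [Finset.mem_filter, Finset.mem_Icc] at hj
  omega

theorem ng : G_NG := by
  classical
  intro k c
  refine ⟨⟨?_, ?_, ?_⟩, ?_⟩
  · rintro t ⟨n, hn, -⟩
    exact ⟨n, hn.1⟩
  · rintro t t' n ⟨n₁, hn₁, j, hj1, hj2, hj3⟩ hn hn' hag
    have he : n₁ = n := last_unique hn₁ hn
    subst he
    refine ⟨n₁ + 1, hn', j, hj1, by omega, ?_⟩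
    intro m hm
    have hlt : m < n₁ := lt_of_lt_of_le (mem_blk.mp hm).2 hj2
    rw [← hag m hlt]
    exact hj3 m hm
  · intro n
    set J := (Finset.Icc (k + 1) n).filter (fun j => 2 ^ (j + 1) ≤ n) with hJ
    have hsub : {t ∈ NF k c | LastN t n} ⊆ ((J.biUnion (fun j => UU n j c) : Finset (Finset ℕ)) :
        Set (Finset ℕ)) := by
      rintro t ⟨⟨n₁, hn₁, j, hj1, hj2, hj3⟩, hn⟩
      have he : n₁ = n := last_unique hn₁ hn
      subst he
      rw [Finset.mem_coe, Finset.mem_biUnion]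
      refine ⟨j, ?_, ?_⟩
      · rw [hJ, Finset.mem_filter, Finset.mem_Icc]
        have h2 : j < 2 ^ j := Nat.lt_two_pow_self
        have h3 : 2 ^ (j + 1) = 2 ^ j + 2 ^ j := by rw [pow_succ]; ring
        exact ⟨⟨hj1, by omega⟩, hj2⟩
      · unfold UU
        rw [Finset.mem_filter, Finset.mem_powerset]
        refine ⟨?_, hn.1, hj3⟩
        intro m hm
        have := hn.2 m hm
        rw [Finset.mem_range]
        omega
    have h1 : {t ∈ NF k c | LastN t n}.ncard ≤ (J.biUnion (fun j => UU n j c)).card := by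
      rw [← Set.ncard_coe_finset]
      exact Set.ncard_le_ncard hsub (Finset.finite_toSet _)
    have h2 : (J.biUnion (fun j => UU n j c)).card ≤ ∑ j ∈ J, 2 ^ (n - 2 ^ j) := by
      refine Finset.card_biUnion_le.trans ?_
      apply Finset.sum_le_sum
      intro j hj
      rw [hJ, Finset.mem_filter] at hj
      exact card_UU n j c hj.2
    calc {t ∈ NF k c | LastN t n}.ncard * 2 ^ k
        ≤ (∑ j ∈ J, 2 ^ (n - 2 ^ j)) * 2 ^ k := Nat.mul_le_mul_right _ (h1.trans h2)
      _ = ∑ j ∈ J, 2 ^ (n - 2 ^ j) * 2 ^ k := Finset.sum_mul _ _ _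
      _ ≤ 2 ^ n := sum_bd n k
  · intro x hx
    have hx' : ∃ᶠ n in atTop, ∀ m ∈ blk n, x m = c m := hx
    obtain ⟨j, hj, hjk⟩ := (hx'.and_eventually (eventually_ge_atTop (k + 1))).exists
    have hlast : LastN (insert (2 ^ (j + 1)) ((Finset.range (2 ^ (j + 1))).filter
        (fun m => x m = true))) (2 ^ (j + 1)) := by
      refine ⟨Finset.mem_insert_self _ _, ?_⟩
      intro m hm
      rw [Finset.mem_insert, Finset.mem_filter, Finset.mem_range] at hm
      rcases hm with hm | hm
      · exact hm.le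
      · exact hm.1.le
    have hmem : ∀ m < 2 ^ (j + 1), (m ∈ (insert (2 ^ (j + 1)) ((Finset.range (2 ^ (j + 1))).filter
        (fun m => x m = true)) : Finset ℕ) ↔ x m = true) := by
      intro m hm
      rw [Finset.mem_insert, Finset.mem_filter, Finset.mem_range]
      constructor
      · rintro (h | h)
        · omega
        · exact h.2
      · intro h
        exact Or.inr ⟨hm, h⟩
    refine ⟨_, ⟨2 ^ (j + 1), hlast, j, hjk, le_refl _, ?_⟩, 2 ^ (j + 1), hlast, ?_⟩
    · intro m hm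
      rw [hmem m (mem_blk.mp hm).2, hj m hm]
    · intro m hm
      exact (hmem m hm).symm

end NU.PkNG
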